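import Pool.Agent.H24.MR.InterfaceCH

/-!
# Module [CHe]: the choice of the last scale
-/

namespace Pool.Agent.H18.MR

open Finset Filter
open Pool.Agent.H24.MR

/-- Eventually `M * u ^ 6 ≤ (3 / 100) * exp u`. -/
theorem ev_pow_exp (M : ℝ) : ∀ᶠ u : ℝ in atTop, M * u ^ 6 ≤ 3 / 100 * Real.exp u := by
  have h := Real.tendsto_exp_div_pow_atTop 6
  filter_upwards [h.eventually_ge_atTop (100 / 3 * M), eventually_gt_atTop 0] with u hu hu0
  rw [le_div_iff₀ (by positivity)] at hu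
  linarith

theorem che : StatementCHe := by
  intro C K A B hA hB hAB
  set M : ℝ := K * 200 ^ 6 + |C| + 10 * 200 ^ 4 with hM
  have hM0 : 0 ≤ M := by positivity
  have hev : ∀ᶠ u : ℝ in atTop, (1 ≤ u ∧ (B : ℝ) < 200 * u) ∧
      M * u ^ 6 ≤ 3 / 100 * Real.exp u := by
    refine ((eventually_ge_atTop 1).and ?_).and (ev_pow_exp M)
    filter_upwards [eventually_gt_atTop ((B : ℝ) / 200)] with u hu
    linarith
  obtain ⟨u0, hu0⟩ := eventually_atTop.1 hev
  refine ⟨Real.exp (Real.exp u0), fun X hX => ?_⟩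
  have hX0 : 0 < X := (Real.exp_pos _).trans_le hX
  set Λ : ℝ := Real.log X with hΛ
  have hΛ1 : Real.exp u0 ≤ Λ := by
    rw [hΛ, Real.le_log_iff_exp_le hX0]; exact hX
  have hΛ0 : 0 < Λ := (Real.exp_pos _).trans_le hΛ1
  set u : ℝ := Real.log Λ with hu
  have huu : u0 ≤ u := by rw [hu, Real.le_log_iff_exp_le hΛ0]; exact hΛ1
  obtain ⟨⟨hu1, huB⟩, huM⟩ := hu0 u huu
  have hexpu : Real.exp u = Λ := by rw [hu, Real.exp_log hΛ0]
  rw [hexpu] at huM
  set T : ℝ := 200 * u with hT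
  have hT200 : 200 ≤ T := by rw [hT]; linarith
  have hT0 : 0 < T := by linarith
  have hX' : ∀ r : ℝ, X ^ r = Real.exp (Λ * r) := by
    intro r
    rw [Real.rpow_def_of_pos hX0]
  -- powers of `u`
  have p1 : u ≤ u ^ 6 := by
    calc u = u ^ 1 := (pow_one u).symm
      _ ≤ u ^ 6 := pow_le_pow_right₀ hu1 (by norm_num)
  have p2 : u ^ 2 ≤ u ^ 6 := pow_le_pow_right₀ hu1 (by norm_num)
  have p4 : u ^ 4 ≤ u ^ 6 := pow_le_pow_right₀ hu1 (by norm_num)
  have p0 : 1 ≤ u ^ 6 := one_le_pow₀ hu1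
  -- choice of `J`
  have hex : ∃ J : ℕ, T ≤ (xs B J : ℝ) := by
    refine ⟨⌈T⌉₊, ?_⟩
    have h1 : T ≤ (⌈T⌉₊ : ℝ) := Nat.le_ceil T
    have h2 : ⌈T⌉₊ ≤ xs B ⌈T⌉₊ := by
      unfold xs
      calc ⌈T⌉₊ ≤ 2 ^ ⌈T⌉₊ := (Nat.lt_two_pow_self).le
        _ ≤ 2 ^ (2 ^ ⌈T⌉₊) := (Nat.lt_two_pow_self).le
        _ ≤ B ^ (2 ^ ⌈T⌉₊) := Nat.pow_le_pow_left hB _
    exact h1.trans (by exact_mod_cast h2)
  classical
  set J := Nat.find hex with hJ
  have hJ1 : T ≤ (xs B J : ℝ) := Nat.find_spec hex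
  have hJ2 : (xs B J : ℝ) ≤ T ^ 2 := by
    rcases Nat.eq_zero_or_pos J with h0 | h0
    · exfalso
      have : (xs B J : ℝ) = B := by rw [h0]; simp [xs]
      rw [this] at hJ1
      linarith
    · obtain ⟨j, hj⟩ := Nat.exists_eq_succ_of_ne_zero h0.ne'
      have hlt : ¬ T ≤ (xs B j : ℝ) := Nat.find_min hex (by rw [← hJ, hj]; exact Nat.lt_succ_self j)
      have h3 := (not_le.1 hlt).le
      have h4 : (xs B J : ℝ) = (xs B j : ℝ) ^ 2 := by
        rw [hj]
        simp only [xs]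
        push_cast
        rw [← pow_mul, pow_succ]
      rw [h4]
      gcongr
  have hy : (ys A B J : ℝ) ≤ T ^ 4 := by
    have h1 : ys A B J ≤ xs B J ^ 2 := by
      simp only [ys, xs]
      rw [mul_pow, pow_two]
      exact Nat.mul_le_mul_right _ (Nat.pow_le_pow_left hAB _)
    have h2 : (ys A B J : ℝ) ≤ (xs B J : ℝ) ^ 2 := by exact_mod_cast h1
    calc (ys A B J : ℝ) ≤ (xs B J : ℝ) ^ 2 := h2
      _ ≤ (T ^ 2) ^ 2 := by gcongr
      _ = T ^ 4 := by ring
  have h2J : (2:ℝ) ^ J ≤ T ^ 2 := by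
    have h1 : 2 ^ J ≤ xs B J := by
      simp only [xs]
      calc 2 ^ J ≤ 2 ^ (2 ^ J) := Nat.pow_le_pow_right (by norm_num) (Nat.lt_two_pow_self).le
        _ ≤ B ^ (2 ^ J) := Nat.pow_le_pow_left hB _
    have h2 : (2:ℝ) ^ J ≤ xs B J := by exact_mod_cast h1
    exact h2.trans hJ2
  have hT4 : T ^ 4 = 200 ^ 4 * u ^ 4 := by rw [hT]; ring
  have hT2 : T ^ 2 = 200 ^ 2 * u ^ 2 := by rw [hT]; ring
  have hT6 : T ^ 6 = 200 ^ 6 * u ^ 6 := by rw [hT]; ring
  have hKC : 0 ≤ (K : ℝ) * 200 ^ 6 * u ^ 6 + |C| * u ^ 6 := by positivity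
  have hMu : M * u ^ 6 = K * 200 ^ 6 * u ^ 6 + |C| * u ^ 6 + 10 * 200 ^ 4 * u ^ 6 := by
    rw [hM]; ring
  refine ⟨J, ?_, ?_⟩
  · rw [hX']
    have h1 : ((J : ℝ) + 1) ≤ Real.exp (T ^ 2) := by
      have a1 : ((J : ℝ) + 1) ≤ (2:ℝ) ^ J := by
        have : J + 1 ≤ 2 ^ J := Nat.lt_two_pow_self
        exact_mod_cast this
      have a2 := Real.add_one_le_exp (T ^ 2)
      linarith
    calc ((J : ℝ) + 1) * Real.exp (ys A B J + 1) ≤ Real.exp (T ^ 2) * Real.exp (T ^ 4 + 1) := by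
          gcongr
      _ = Real.exp (T ^ 2 + (T ^ 4 + 1)) := by rw [← Real.exp_add]
      _ ≤ Real.exp (Λ * (1 / 2)) := by
          apply Real.exp_le_exp.2
          rw [hT2, hT4]
          linarith
  · intro V hV1 hV2
    have hVT : T ≤ V := hJ1.trans hV1
    have hV0 : 0 < V := hT0.trans_le hVT
    have hV4 : V ≤ T ^ 4 := hV2.trans hy
    set l : ℕ := ⌈Λ / V⌉₊ with hl
    have hl1 : (l : ℝ) ≤ Λ / V + 1 := (Nat.ceil_lt_add_one (by positivity)).le
    have hl2 : (l : ℝ) ≤ Λ / T + 1 := by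
      have : Λ / V ≤ Λ / T := by gcongr
      linarith
    have hΛ2 : 200 ≤ Λ := by linarith
    have hl3 : (l : ℝ) ≤ Λ := by
      have : Λ / T ≤ Λ / 200 := by gcongr
      linarith
    have hVl : V * l ≤ Λ + T ^ 4 := by
      calc V * l ≤ V * (Λ / V + 1) := by gcongr
        _ = Λ + V := by field_simp
        _ ≤ _ := by linarith
    have b1 : ((Hs K J * ys A B J + 1 : ℕ) : ℝ) ≤ Real.exp (K * T ^ 6) := by
      have := Real.add_one_le_exp (K * T ^ 6)
      refine le_trans ?_ this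
      simp only [Hs]
      push_cast
      have : (K : ℝ) * 2 ^ J * (ys A B J : ℝ) ≤ K * T ^ 2 * T ^ 4 := by gcongr
      have e : (K : ℝ) * T ^ 2 * T ^ 4 = K * T ^ 6 := by ring
      linarith
    have b2 : C ≤ Real.exp |C| := by
      have := Real.add_one_le_exp |C|
      have := le_abs_self C
      linarith
    have b3 : (l.factorial : ℝ) ^ 2 ≤ Real.exp (Λ / 100 + 2 * u) := by
      have h1 : (l.factorial : ℝ) ≤ (l : ℝ) ^ l := by exact_mod_cast Nat.factorial_le_pow l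
      have h2 : (l : ℝ) ^ l ≤ Λ ^ l := by gcongr
      have h3 : Λ ^ l = Real.exp (u * l) := by
        rw [← hexpu, ← Real.exp_nat_mul]; ring_nf
      have h4 : (l.factorial : ℝ) ≤ Real.exp (u * l) := by rw [← h3]; exact h1.trans h2
      calc (l.factorial : ℝ) ^ 2 ≤ (Real.exp (u * l)) ^ 2 := by gcongr
        _ = Real.exp (2 * (u * l)) := by rw [← Real.exp_nat_mul]; norm_num
        _ ≤ Real.exp (2 * (u * (Λ / T + 1))) := by gcongr
        _ = Real.exp (Λ / 100 + 2 * u) := by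
            congr 1
            rw [hT]
            field_simp
            ring
    have b4 : ((l : ℝ) * (V + 1)) ^ 2 ≤ Real.exp (2 * (u + T ^ 4)) := by
      have h1 : (l : ℝ) * (V + 1) ≤ Real.exp (u + T ^ 4) := by
        have a1 := Real.add_one_le_exp (T ^ 4)
        rw [Real.exp_add, hexpu]
        have : V + 1 ≤ Real.exp (T ^ 4) := by linarith
        gcongr
      calc ((l : ℝ) * (V + 1)) ^ 2 ≤ (Real.exp (u + T ^ 4)) ^ 2 := by gcongr
        _ = _ := by rw [← Real.exp_nat_mul]; norm_num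
    have b5 : Real.exp (2 * al J * V * l) ≤ Real.exp (2 / 5 * (Λ + T ^ 4)) := by
      apply Real.exp_le_exp.2
      have hal1 : al J ≤ 1 / 5 := by
        unfold al
        have : (0:ℝ) ≤ 1 / 10 / 2 ^ J := by positivity
        linarith
      have hVl0 : 0 ≤ V * l := by positivity
      calc 2 * al J * V * l = 2 * (al J * (V * l)) := by ring
        _ ≤ 2 * (1 / 5 * (Λ + T ^ 4)) := by
            have : al J * (V * l) ≤ 1 / 5 * (V * l) := by gcongr
            nlinarith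
        _ = _ := by ring
    rw [hX']
    have hpos3 : 0 ≤ (l.factorial : ℝ) ^ 2 := by positivity
    have hinner : C * (l.factorial : ℝ) ^ 2 * ((l : ℝ) * (V + 1)) ^ 2 *
        Real.exp (2 * al J * V * l) ≤ Real.exp |C| * Real.exp (Λ / 100 + 2 * u) *
        Real.exp (2 * (u + T ^ 4)) * Real.exp (2 / 5 * (Λ + T ^ 4)) := by
      have h1 : C * (l.factorial : ℝ) ^ 2 ≤ Real.exp |C| * Real.exp (Λ / 100 + 2 * u) := by
        calc C * (l.factorial : ℝ) ^ 2 ≤ Real.exp |C| * (l.factorial : ℝ) ^ 2 := by gcongr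
          _ ≤ _ := by gcongr
      have h2 : C * (l.factorial : ℝ) ^ 2 * ((l : ℝ) * (V + 1)) ^ 2 ≤
          Real.exp |C| * Real.exp (Λ / 100 + 2 * u) * Real.exp (2 * (u + T ^ 4)) := by
        calc C * (l.factorial : ℝ) ^ 2 * ((l : ℝ) * (V + 1)) ^ 2
            ≤ Real.exp |C| * Real.exp (Λ / 100 + 2 * u) * ((l : ℝ) * (V + 1)) ^ 2 := by gcongr
          _ ≤ _ := by gcongr
      calc _ ≤ Real.exp |C| * Real.exp (Λ / 100 + 2 * u) * Real.exp (2 * (u + T ^ 4)) *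
            Real.exp (2 * al J * V * l) := by gcongr
        _ ≤ _ := by gcongr
    have hfin : Real.exp (K * T ^ 6) * (Real.exp |C| * Real.exp (Λ / 100 + 2 * u) *
        Real.exp (2 * (u + T ^ 4)) * Real.exp (2 / 5 * (Λ + T ^ 4))) ≤
        Real.exp (Λ * (11 / 25)) := by
      rw [← Real.exp_add, ← Real.exp_add, ← Real.exp_add, ← Real.exp_add]
      apply Real.exp_le_exp.2
      rw [hT4, hT6]
      have hC6 : |C| ≤ |C| * u ^ 6 := le_mul_of_one_le_right (abs_nonneg _) p0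
      linarith
    calc _ ≤ ((Hs K J * ys A B J + 1 : ℕ) : ℝ) * (Real.exp |C| * Real.exp (Λ / 100 + 2 * u) *
        Real.exp (2 * (u + T ^ 4)) * Real.exp (2 / 5 * (Λ + T ^ 4))) := by gcongr
      _ ≤ Real.exp (K * T ^ 6) * (Real.exp |C| * Real.exp (Λ / 100 + 2 * u) *
        Real.exp (2 * (u + T ^ 4)) * Real.exp (2 / 5 * (Λ + T ^ 4))) := by gcongr
      _ ≤ _ := hfin

end Pool.Agent.H18.MR
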