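import Mathlib

/-!
# The sequence lemma behind the entropy decrement argument
-/

namespace Pool.Agent.H18.MR

open Finset Filter

theorem sum_Ico_sub_shift (h : ℕ → ℝ) (A B s : ℕ) (hAB : A ≤ B) :
    ∑ m ∈ Ico A B, (h m - h (m + s)) = ∑ i ∈ range s, (h (A + i) - h (B + i)) := by
  have key : ∀ f : ℕ → ℝ, ∑ m ∈ Ico A B, (f m - f (m + 1)) = f A - f B := by
    intro f
    induction B, hAB using Nat.le_induction with
    | base => simp
    | succ B hB ih => rw [Finset.sum_Ico_succ_top hB, ih]; ring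
  induction s with
  | zero => simp
  | succ s ih =>
    rw [Finset.sum_range_succ, ← ih, ← key (fun m => h (m + s)), ← Finset.sum_add_distrib]
    apply Finset.sum_congr rfl
    intro m _
    have : m + 1 + s = m + (s + 1) := by ring
    simp only [this]
    ring

theorem decr_contra (h I : ℕ → ℝ) (hpos : ∀ m, 0 ≤ h m) (hanti : Antitone h) (E : ℝ)
    (hE : 0 ≤ E) (hdec : ∀ m s, h (m + s) ≤ h m - I m + E / 2 ^ s) (C : ℕ) (hC : 2 ≤ C)
    (δ : ℝ) (hδ : 0 < δ) (j0 : ℕ)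
    (hblock : ∀ j, j0 ≤ j → δ ≤ ∑ m ∈ Ico (C ^ j) (C ^ (j + 1)), I m) : False := by
  obtain ⟨s', hs'⟩ : ∃ s' : ℕ, E / 2 ^ s' ≤ δ / 2 := by
    have ht : Tendsto (fun n : ℕ => E * (1 / 2 : ℝ) ^ n) atTop (nhds 0) := by
      simpa using (tendsto_pow_atTop_nhds_zero_of_lt_one (by norm_num : (0:ℝ) ≤ 1 / 2)
        (by norm_num)).const_mul E
    obtain ⟨n, hn⟩ := (ht.eventually (gt_mem_nhds (half_pos hδ))).exists
    refine ⟨n, ?_⟩
    have : E / 2 ^ n = E * (1 / 2 : ℝ) ^ n := by rw [one_div, inv_pow]; rfl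
    rw [this]; exact hn.le
  set D : ℕ := C + s' with hD
  have hD0 : 0 < D := by omega
  -- s_j
  set sj : ℕ → ℕ := fun j => C * (j + 1) + s' with hsj
  have hsjD : ∀ j, sj j ≤ D * (j + 1) := by
    intro j
    simp only [hsj, hD]
    nlinarith
  have step1 : ∀ j, j0 ≤ j → δ / 2 ≤ (sj j : ℝ) * (h (C ^ j) - h (C ^ (j + 1) + sj j)) := by
    intro j hj
    have hle : C ^ j ≤ C ^ (j + 1) := Nat.pow_le_pow_right (by omega) (by omega)
    have h1 := hblock j hj
    have h2 : ∑ m ∈ Ico (C ^ j) (C ^ (j + 1)), I m ≤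
        ∑ m ∈ Ico (C ^ j) (C ^ (j + 1)), ((h m - h (m + sj j)) + E / 2 ^ (sj j)) := by
      apply Finset.sum_le_sum
      intro m _
      have := hdec m (sj j)
      linarith
    rw [Finset.sum_add_distrib, sum_Ico_sub_shift h _ _ _ hle] at h2
    have h3 : ∑ i ∈ range (sj j), (h (C ^ j + i) - h (C ^ (j + 1) + i)) ≤
        ∑ i ∈ range (sj j), (h (C ^ j) - h (C ^ (j + 1) + sj j)) := by
      apply Finset.sum_le_sum
      intro i hi
      have hi' := Finset.mem_range.1 hi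
      have a1 : h (C ^ j + i) ≤ h (C ^ j) := hanti (by omega)
      have a2 : h (C ^ (j + 1) + sj j) ≤ h (C ^ (j + 1) + i) := hanti (by omega)
      linarith
    simp only [Finset.sum_const, Finset.card_range, nsmul_eq_mul, Nat.card_Ico] at h2 h3
    have h4 : ((C ^ (j + 1) - C ^ j : ℕ) : ℝ) * (E / 2 ^ sj j) ≤ δ / 2 := by
      have c1 : ((C ^ (j + 1) - C ^ j : ℕ) : ℝ) ≤ (2:ℝ) ^ (C * (j + 1)) := by
        have : C ^ (j + 1) - C ^ j ≤ 2 ^ (C * (j + 1)) := by
          calc C ^ (j + 1) - C ^ j ≤ C ^ (j + 1) := Nat.sub_le _ _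
            _ ≤ (2 ^ C) ^ (j + 1) := Nat.pow_le_pow_left (Nat.lt_two_pow_self).le _
            _ = 2 ^ (C * (j + 1)) := by rw [← pow_mul]
        exact_mod_cast this
      have c2 : (0:ℝ) ≤ E / 2 ^ sj j := by positivity
      calc ((C ^ (j + 1) - C ^ j : ℕ) : ℝ) * (E / 2 ^ sj j)
          ≤ (2:ℝ) ^ (C * (j + 1)) * (E / 2 ^ sj j) := by gcongr
        _ = E / 2 ^ s' := by
            simp only [hsj]
            rw [pow_add]
            field_simp
        _ ≤ δ / 2 := hs'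
    linarith
  have hpow : ∀ᶠ j : ℕ in atTop, D * (j + 1) ≤ C ^ (j + 1) := by
    have ht := tendsto_pow_const_div_const_pow_of_one_lt 1 (by norm_num : (1:ℝ) < 2)
    have hD' : (0:ℝ) < 1 / D := by positivity
    have h1 := (ht.eventually (gt_mem_nhds hD'))
    have h2 := (tendsto_add_atTop_nat 1).eventually h1
    filter_upwards [h2] with j hj
    have hp : (0:ℝ) < 2 ^ (j + 1) := by positivity
    rw [pow_one, div_lt_div_iff₀ hp (by positivity)] at hj
    have h3 : (D : ℝ) * ((j + 1 : ℕ) : ℝ) ≤ (2:ℝ) ^ (j + 1) := by linarith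
    have h4 : D * (j + 1) ≤ 2 ^ (j + 1) := by exact_mod_cast h3
    exact h4.trans (Nat.pow_le_pow_left hC _)
  obtain ⟨j1, hj1⟩ := eventually_atTop.1 hpow
  set j2 := max j0 j1 with hj2
  set g : ℕ → ℝ := fun j => h (C ^ j) with hg
  set κ : ℝ := δ / (2 * D) with hκ
  have hκ0 : 0 < κ := by positivity
  have step2 : ∀ j, j2 ≤ j → κ * (1 / ((j : ℝ) + 1)) ≤ g j - g (j + 2) := by
    intro j hj
    have e0 : j0 ≤ j := (le_max_left _ _).trans hj
    have e1 : j1 ≤ j := (le_max_right _ _).trans hj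
    have h1 := step1 j e0
    have h2 : C ^ (j + 1) + sj j ≤ C ^ (j + 2) := by
      have := hj1 j e1
      have h3 := hsjD j
      have : C ^ (j + 2) = C * C ^ (j + 1) := by ring
      nlinarith [Nat.mul_le_mul_right (C ^ (j + 1)) hC]
    have h3 : g (j + 2) ≤ h (C ^ (j + 1) + sj j) := hanti h2
    have h4 : g (j + 2) ≤ g j := hanti (Nat.pow_le_pow_right (by omega) (by omega))
    have hs1 : (sj j : ℝ) ≤ D * ((j : ℝ) + 1) := by exact_mod_cast hsjD j
    have h5 : δ / 2 ≤ D * ((j : ℝ) + 1) * (g j - g (j + 2)) := by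
      calc δ / 2 ≤ (sj j : ℝ) * (h (C ^ j) - h (C ^ (j + 1) + sj j)) := h1
        _ ≤ (sj j : ℝ) * (g j - g (j + 2)) := by
            have : h (C ^ j) = g j := rfl
            rw [this]
            gcongr
        _ ≤ _ := mul_le_mul_of_nonneg_right hs1 (by linarith)
    rw [hκ]
    have hD'' : (0:ℝ) < D := by exact_mod_cast hD0
    have hj' : (0:ℝ) < (j : ℝ) + 1 := by positivity
    rw [div_mul_div_comm, div_le_iff₀ (by positivity)]
    nlinarith
  have claim : ∀ n, j2 ≤ n → κ * ((∑ i ∈ range n, (1 / ((i : ℝ) + 1))) -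
      ∑ i ∈ range j2, (1 / ((i : ℝ) + 1))) + g n + g (n + 1) ≤ g j2 + g (j2 + 1) := by
    intro n hn
    induction n, hn using Nat.le_induction with
    | base => simp
    | succ n hn ih =>
      have := step2 n hn
      rw [Finset.sum_range_succ]
      have e : κ * (∑ i ∈ range n, (1 / ((i : ℝ) + 1)) + 1 / ((n : ℝ) + 1) -
        ∑ i ∈ range j2, (1 / ((i : ℝ) + 1))) = κ * ((∑ i ∈ range n, (1 / ((i : ℝ) + 1))) -
        ∑ i ∈ range j2, (1 / ((i : ℝ) + 1))) + κ * (1 / ((n : ℝ) + 1)) := by ring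
      rw [e]
      have e2 : n + 1 + 1 = n + 2 := rfl
      rw [e2]
      linarith
  have htop := Real.tendsto_sum_range_one_div_nat_succ_atTop
  obtain ⟨n, hn1, hn2⟩ := ((htop.eventually_gt_atTop
    ((g j2 + g (j2 + 1)) / κ + ∑ i ∈ range j2, (1 / ((i : ℝ) + 1)))).and
    (eventually_ge_atTop j2)).exists
  have h1 := claim n hn2
  have h2 : 0 ≤ g n := hpos _
  have h3 : 0 ≤ g (n + 1) := hpos _
  have h4 : (g j2 + g (j2 + 1)) / κ < (∑ i ∈ range n, (1 / ((i : ℝ) + 1))) -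
      ∑ i ∈ range j2, (1 / ((i : ℝ) + 1)) := by linarith
  rw [div_lt_iff₀ hκ0] at h4
  linarith

end Pool.Agent.H18.MR
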