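import Pool.Agent.H18.MR.Prime
import Pool.Agent.H18.MR.Seq

/-!
# Module [EN]: the entropy decrement argument at one scale
-/

namespace Pool.Agent.H18.MR

open Finset Filter
open Pool.Agent.H24.MR Pool.Agent.H59.MR

/-- The primes `≡ 1 (mod Q)` in `(2 ^ m, 2 ^ (m + 1)]`. -/
def Pset (Q m : ℕ) : Finset ℕ :=
  (Ioc (2 ^ m) (2 ^ (m + 1))).filter (fun p => p.Prime ∧ p ≡ 1 [MOD Q])

theorem mem_Pset {Q m p : ℕ} :
    p ∈ Pset Q m ↔ (2 ^ m < p ∧ p ≤ 2 ^ (m + 1)) ∧ p.Prime ∧ p ≡ 1 [MOD Q] := by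
  simp [Pset]

theorem coprime_of_mod_one {Q p : ℕ} (h : p ≡ 1 [MOD Q]) : Nat.Coprime Q p := by
  have := h.gcd_eq
  rw [Nat.gcd_one_left] at this
  rw [Nat.coprime_comm]
  exact this

theorem prod_Pset_ne_zero (Q m : ℕ) : ∏ p ∈ Pset Q m, p ≠ 0 :=
  Finset.prod_ne_zero_iff.2 fun _ hp => (mem_Pset.1 hp).2.1.ne_zero

theorem log_prod_Pset_le (Q m : ℕ) :
    Real.log ((∏ p ∈ Pset Q m, p : ℕ) : ℝ) ≤ 2 ^ (m + 1) * Real.log 4 := by
  have h1 : ∏ p ∈ Pset Q m, p ≤ primorial (2 ^ (m + 1)) := by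
    unfold primorial
    apply Finset.prod_le_prod_of_subset_of_one_le'
    · intro p hp
      have := mem_Pset.1 hp
      simp only [Finset.mem_filter, Finset.mem_range]
      exact ⟨by omega, this.2.1⟩
    · intro p hp _
      exact (Finset.mem_filter.1 hp).2.one_lt.le
  have h2 : ∏ p ∈ Pset Q m, p ≤ 4 ^ (2 ^ (m + 1)) := h1.trans (primorial_le_four_pow _)
  have h3 : ((∏ p ∈ Pset Q m, p : ℕ) : ℝ) ≤ (4:ℝ) ^ (2 ^ (m + 1)) := by exact_mod_cast h2
  have h4 : (0:ℝ) < ((∏ p ∈ Pset Q m, p : ℕ) : ℝ) := by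
    exact_mod_cast Nat.pos_of_ne_zero (prod_Pset_ne_zero Q m)
  calc Real.log ((∏ p ∈ Pset Q m, p : ℕ) : ℝ) ≤ Real.log ((4:ℝ) ^ (2 ^ (m + 1))) :=
        Real.log_le_log h4 h3
    _ = 2 ^ (m + 1) * Real.log 4 := by rw [Real.log_pow]; push_cast; ring

theorem sum_inv_primes_le (Q A B : ℕ) (hAB : A ≤ B) :
    ∑ p ∈ (Ioc (2 ^ A) (2 ^ B)).filter (fun p => p.Prime ∧ p ≡ 1 [MOD Q]), (1 / (p : ℝ)) ≤
      ∑ m ∈ Ico A B, ((Pset Q m).card : ℝ) / 2 ^ m := by
  induction B, hAB using Nat.le_induction with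
  | base => simp
  | succ B hB ih =>
    rw [Finset.sum_Ico_succ_top hB, Finset.sum_filter,
      ← Finset.sum_Ioc_consecutive _ (Nat.pow_le_pow_right (by norm_num) hB)
        (Nat.pow_le_pow_right (by norm_num) (Nat.le_succ B)), ← Finset.sum_filter,
      ← Finset.sum_filter]
    apply add_le_add ih
    have : ∀ p ∈ Pset Q B, 1 / (p : ℝ) ≤ 1 / 2 ^ B := by
      intro p hp
      have := (mem_Pset.1 hp).1.1
      have h1 : (2:ℝ) ^ B ≤ p := by exact_mod_cast this.le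
      have h0 : (0:ℝ) < 2 ^ B := by positivity
      exact one_div_le_one_div_of_le h0 h1
    calc _ ≤ ∑ p ∈ Pset Q B, (1:ℝ) / 2 ^ B := Finset.sum_le_sum this
      _ = _ := by rw [Finset.sum_const, nsmul_eq_mul]; ring

/-- **Entropy decrement at one scale.**  `C` and `c` are the constants of a weak Mertens theorem
in the progressions `1 (mod q)`. -/
theorem entropy_decrement (C : ℕ) (hC : 2 ≤ C) (c : ℝ) (hc : 0 < c)
    (hME : ∀ q : ℕ, 0 < q → ∃ x0 : ℕ, ∀ x : ℕ, x0 ≤ x → c / (Nat.totient q : ℝ) ≤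
      ∑ p ∈ (Ioc x (x ^ C)).filter (fun p => p.Prime ∧ p ≡ 1 [MOD q]), (1 / (p : ℝ)))
    (ν : Set ℕ → ℝ) (hν : FinAddInv ν) (a : ℕ → ℝ)
    (ha : ∀ n, a n = 1 ∨ a n = -1) (Q K' u0 : ℕ) (hQ : 0 < Q) (s : ℝ) (η : ℝ) (hη : 0 < η)
    (hyp : ∀ p : ℕ, p.Prime → p ≡ 1 [MOD Q] →
      ν {y | y ≡ u0 [MOD Q] ∧ p ∣ y ∧ a y * a (y + p * K') ≠ s} ≤ η / (p * Q))
    (m0 : ℕ) :
    ∃ m, m0 ≤ m ∧ ∃ G : Finset ℕ,
      (∀ p ∈ G, p.Prime ∧ p ≡ 1 [MOD Q] ∧ 2 ^ m < p ∧ p ≤ 2 ^ (m + 1)) ∧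
      c / (4 * C) * 2 ^ m / (Nat.totient Q * m) ≤ (G.card : ℝ) ∧
      ∀ p ∈ G, ν {y | y ≡ u0 [MOD Q] ∧ a y * a (y + p * K') ≠ s} ≤ 6 * η / Q := by
  classical
  set μ := condP ν hν Q u0 hQ with hμ
  set nn : ℕ → ℕ := fun m => (Q + K') * 2 ^ (m + 1) with hnn
  set c1 : ℝ := c / (2 * C) with hc1
  have hC0 : (0:ℝ) < C := by exact_mod_cast (by omega : 0 < C)
  have hQ0 : (0:ℝ) < Q := by exact_mod_cast hQ
  have hφ0 : (0:ℝ) < Nat.totient Q := by exact_mod_cast Nat.totient_pos.2 hQ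
  have hc10 : 0 < c1 := by positivity
  have hnn0 : ∀ m, (0:ℝ) < nn m := by
    intro m
    have : 0 < nn m := by positivity
    exact_mod_cast this
  have hnns : ∀ m s, nn (m + s) = 2 ^ s * nn m := by
    intro m s
    simp only [hnn]
    ring
  -- a good dense scale gives the conclusion
  have good : ∀ m, m0 ≤ m → c1 * 2 ^ m / (Nat.totient Q * m) ≤ ((Pset Q m).card : ℝ) →
      miN μ (blk a Q (nn m)) (∏ p ∈ Pset Q m, p) ≤ η * (Pset Q m).card →
      ∃ m, m0 ≤ m ∧ ∃ G : Finset ℕ,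
      (∀ p ∈ G, p.Prime ∧ p ≡ 1 [MOD Q] ∧ 2 ^ m < p ∧ p ≤ 2 ^ (m + 1)) ∧
      c / (4 * C) * 2 ^ m / (Nat.totient Q * m) ≤ (G.card : ℝ) ∧
      ∀ p ∈ G, ν {y | y ≡ u0 [MOD Q] ∧ a y * a (y + p * K') ≠ s} ≤ 6 * η / Q := by
    intro m hm hdense hI
    refine ⟨m, hm, (Pset Q m).filter (fun p => miN μ (blk a Q (nn m)) p ≤ 2 * η), ?_, ?_, ?_⟩
    · intro p hp
      have h := mem_Pset.1 (Finset.mem_filter.1 hp).1
      exact ⟨h.2.1, h.2.2, h.1.1, h.1.2⟩
    · -- at least half of the primes are good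
      have h1 := sum_miN_le hν hQ (u0 := u0) (blk a Q (nn m)) (Pset Q m)
        (fun p hp => (mem_Pset.1 hp).2.1) (fun p hp => coprime_of_mod_one (mem_Pset.1 hp).2.2)
      rw [← hμ] at h1
      have h2 := h1.trans hI
      have h3 : ∑ p ∈ (Pset Q m).filter (fun p => ¬ miN μ (blk a Q (nn m)) p ≤ 2 * η),
          2 * η ≤ ∑ p ∈ Pset Q m, miN μ (blk a Q (nn m)) p := by
        calc _ ≤ ∑ p ∈ (Pset Q m).filter (fun p => ¬ miN μ (blk a Q (nn m)) p ≤ 2 * η),
              miN μ (blk a Q (nn m)) p := by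
              apply Finset.sum_le_sum
              intro p hp
              exact (not_le.1 (Finset.mem_filter.1 hp).2).le
          _ ≤ _ := Finset.sum_le_sum_of_subset_of_nonneg (Finset.filter_subset _ _)
              (fun p _ _ => miN_nonneg μ _ p)
      rw [Finset.sum_const, nsmul_eq_mul] at h3
      have h4 := Finset.card_filter_add_card_filter_not (s := Pset Q m)
        (fun p => miN μ (blk a Q (nn m)) p ≤ 2 * η)
      have h5 : (((Pset Q m).filter (fun p => miN μ (blk a Q (nn m)) p ≤ 2 * η)).card : ℝ) +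
          ((Pset Q m).filter (fun p => ¬ miN μ (blk a Q (nn m)) p ≤ 2 * η)).card =
          (Pset Q m).card := by exact_mod_cast h4
      have h6 : c / (4 * C) * 2 ^ m / (Nat.totient Q * m) =
          (c1 * 2 ^ m / (Nat.totient Q * m)) / 2 := by
        rw [hc1]; field_simp; ring
      rw [h6]
      have h7 := h3.trans h2
      have h8 : (((Pset Q m).filter (fun p => ¬ miN μ (blk a Q (nn m)) p ≤ 2 * η)).card : ℝ) ≤
          (Pset Q m).card / 2 := by
        have : η * (2 * (((Pset Q m).filter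
            (fun p => ¬ miN μ (blk a Q (nn m)) p ≤ 2 * η)).card : ℝ)) ≤
            η * (Pset Q m).card := by linarith
        have := le_of_mul_le_mul_left this hη
        linarith
      linarith
    · intro p hp
      have hp1 := mem_Pset.1 (Finset.mem_filter.1 hp).1
      have hp2 := (Finset.mem_filter.1 hp).2
      have : NeZero p := ⟨hp1.2.1.ne_zero⟩
      have hlen : p * (Q + K') ≤ Q * nn m := by
        simp only [hnn]
        calc p * (Q + K') ≤ 2 ^ (m + 1) * (Q + K') := Nat.mul_le_mul_right _ hp1.1.2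
          _ = 1 * ((Q + K') * 2 ^ (m + 1)) := by ring
          _ ≤ Q * ((Q + K') * 2 ^ (m + 1)) := Nat.mul_le_mul_right _ hQ
      have h := prime_bound hν hQ (u0 := u0) a ha s K' (nn m) p
        (coprime_of_mod_one hp1.2.2) hlen η (hyp p hp1.2.1 hp1.2.2)
      rw [← hμ, hμ, condP_apply] at h
      simp only [Set.mem_ofPred_eq] at h
      rw [← hμ] at h
      have he : (1:ℝ) / 2 ≤ 1 - Real.exp (-1) := by
        have h1 : Real.exp (-1) ≤ 1 / 2 := by
          rw [Real.exp_neg, ← one_div]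
          apply one_div_le_one_div_of_le (by norm_num)
          have := Real.exp_one_gt_d9
          linarith
        linarith
      have hd := hν.nonneg {y | y ≡ u0 [MOD Q] ∧ a y * a (y + p * K') ≠ s}
      have h1 : (1:ℝ) / 2 * (Q * ν {y | y ≡ u0 [MOD Q] ∧ a y * a (y + p * K') ≠ s}) ≤
          3 * η := by
        calc _ ≤ (1 - Real.exp (-1)) *
              (Q * ν {y | y ≡ u0 [MOD Q] ∧ a y * a (y + p * K') ≠ s}) := by
              gcongr
          _ ≤ _ := h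
          _ ≤ 3 * η := by linarith
      rw [le_div_iff₀ hQ0]
      linarith
  by_contra hcon
  have hbad : ∀ m, m0 ≤ m → c1 * 2 ^ m / (Nat.totient Q * m) ≤ ((Pset Q m).card : ℝ) →
      η * (Pset Q m).card < miN μ (blk a Q (nn m)) (∏ p ∈ Pset Q m, p) := by
    intro m hm hd
    by_contra hlt
    exact hcon (good m hm hd (not_lt.1 hlt))
  -- sequences
  set h : ℕ → ℝ := fun m => ent μ (blk a Q (nn m)) / nn m with hh
  set I : ℕ → ℝ := fun m => miN μ (blk a Q (nn m)) (∏ p ∈ Pset Q m, p) / nn m with hI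
  have hpos : ∀ m, 0 ≤ h m := fun m => div_nonneg (ent_nonneg μ _) (hnn0 m).le
  have hIpos : ∀ m, 0 ≤ I m := fun m => div_nonneg (miN_nonneg μ _ _) (hnn0 m).le
  have hlog4 : 0 ≤ Real.log 4 := Real.log_nonneg (by norm_num)
  have hdec : ∀ m s, h (m + s) ≤ h m - I m + Real.log 4 / 2 ^ s := by
    intro m s
    have : NeZero (∏ p ∈ Pset Q m, p) := ⟨prod_Pset_ne_zero Q m⟩
    have h1 := ent_blk_decr hν hQ (u0 := u0) a (nn m) (∏ p ∈ Pset Q m, p)
      (Nat.Coprime.prod_right fun p hp => coprime_of_mod_one (mem_Pset.1 hp).2.2) (2 ^ s)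
    rw [← hμ] at h1
    have h2 := log_prod_Pset_le Q m
    have e : ent μ (blk a Q (nn (m + s))) = ent μ (blk a Q (2 ^ s * nn m)) := by rw [hnns]
    have h3 : (nn (m + s) : ℝ) = 2 ^ s * nn m := by rw [hnns]; push_cast; ring
    simp only [hh, hI]
    rw [e, h3, div_le_iff₀ (by have := hnn0 m; positivity)]
    have h4 : (2:ℝ) ^ (m + 1) ≤ nn m := by
      have : 2 ^ (m + 1) ≤ nn m := by
        simp only [hnn]
        exact Nat.le_mul_of_pos_left _ (by omega)
      exact_mod_cast this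
    have h5 : (2:ℝ) ^ (m + 1) * Real.log 4 ≤ nn m * Real.log 4 := by gcongr
    have h6 : (ent μ (blk a Q (nn m)) / (nn m : ℝ) -
        miN μ (blk a Q (nn m)) (∏ p ∈ Pset Q m, p) / (nn m : ℝ) + Real.log 4 / 2 ^ s) *
        (2 ^ s * nn m) = 2 ^ s * (ent μ (blk a Q (nn m)) -
        miN μ (blk a Q (nn m)) (∏ p ∈ Pset Q m, p)) + nn m * Real.log 4 := by
      have := (hnn0 m).ne'
      field_simp
      try ring
    rw [h6]
    push_cast at h1 h2
    linarith
  have hanti : Antitone h := by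
    apply antitone_nat_of_succ_le
    intro m
    have h1 := ent_blk_decr hν hQ (u0 := u0) a (nn m) 1 (Nat.coprime_one_right Q) (2 ^ 1)
    rw [← hμ] at h1
    have e : ent μ (blk a Q (nn (m + 1))) = ent μ (blk a Q (2 ^ 1 * nn m)) := by rw [hnns]
    have h3 : (nn (m + 1) : ℝ) = 2 ^ 1 * nn m := by rw [hnns]; push_cast; ring
    have h4 := miN_nonneg μ (blk a Q (nn m)) 1
    simp only [hh]
    rw [e, h3, div_le_div_iff₀ (by have := hnn0 m; positivity) (hnn0 m)]
    simp only [Nat.cast_one, Real.log_one, Nat.cast_ofNat, pow_one] at h1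
    have h5 : ent μ (blk a Q (2 ^ 1 * nn m)) ≤ 2 * ent μ (blk a Q (nn m)) := by
      linarith
    have := hnn0 m
    nlinarith
  obtain ⟨x0, hx0⟩ := hME Q hQ
  set w : ℝ := η / (2 * (Q + K')) with hw
  have hw0 : 0 < w := by positivity
  apply decr_contra h I hpos hanti (Real.log 4) hlog4 hdec C hC
    (w * (c / (2 * Nat.totient Q))) (by positivity) (max (max m0 x0) 1)
  intro j hj
  have hj1 : m0 ≤ j := (le_max_left _ _).trans ((le_max_left _ _).trans hj)
  have hj2 : x0 ≤ j := (le_max_right _ _).trans ((le_max_left _ _).trans hj)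
  have hjC : j ≤ C ^ j := (Nat.lt_pow_self (by omega)).le
  have hCj : C ^ j ≤ C ^ (j + 1) := Nat.pow_le_pow_right (by omega) (by omega)
  have hI_lower : ∀ m ∈ Ico (C ^ j) (C ^ (j + 1)),
      w * (((Pset Q m).card : ℝ) / 2 ^ m - c1 / Nat.totient Q * (1 / C ^ j)) ≤ I m := by
    intro m hm
    have hm1 := (Finset.mem_Ico.1 hm).1
    have hm0 : m0 ≤ m := hj1.trans (hjC.trans hm1)
    have hCj0 : 0 < C ^ j := by positivity
    have hmpos : 0 < m := by omega
    have hm' : (0:ℝ) < m := by exact_mod_cast hmpos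
    by_cases hd : c1 * 2 ^ m / (Nat.totient Q * m) ≤ ((Pset Q m).card : ℝ)
    · have h1 := (hbad m hm0 hd).le
      have h2 : w * (((Pset Q m).card : ℝ) / 2 ^ m) ≤ I m := by
        simp only [hI]
        rw [le_div_iff₀ (hnn0 m)]
        have e : w * (((Pset Q m).card : ℝ) / 2 ^ m) * nn m = η * (Pset Q m).card := by
          simp only [hw, hnn]
          push_cast
          have h1 : (Q:ℝ) + K' ≠ 0 := by positivity
          field_simp
          ring
        rw [e]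
        exact h1
      have h3 : 0 ≤ w * (c1 / Nat.totient Q * (1 / C ^ j)) := by positivity
      linarith
    · have h1 := (not_le.1 hd).le
      have h2 : ((Pset Q m).card : ℝ) / 2 ^ m ≤ c1 / Nat.totient Q * (1 / C ^ j) := by
        rw [div_le_iff₀ (by positivity)]
        calc ((Pset Q m).card : ℝ) ≤ c1 * 2 ^ m / (Nat.totient Q * m) := h1
          _ ≤ c1 * 2 ^ m / (Nat.totient Q * (C ^ j : ℕ)) := by
              have hCj0' : (0:ℝ) < (C ^ j : ℕ) := by exact_mod_cast hCj0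
              have : ((C ^ j : ℕ) : ℝ) ≤ m := by exact_mod_cast hm1
              gcongr
          _ = c1 / Nat.totient Q * (1 / C ^ j) * 2 ^ m := by
              push_cast
              field_simp
      have h3 : w * (((Pset Q m).card : ℝ) / 2 ^ m - c1 / Nat.totient Q * (1 / C ^ j)) ≤ 0 := by
        apply mul_nonpos_of_nonneg_of_nonpos hw0.le
        linarith
      exact h3.trans (hIpos m)
  have hsum := Finset.sum_le_sum hI_lower
  rw [← Finset.mul_sum, Finset.sum_sub_distrib] at hsum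
  have hpr := sum_inv_primes_le Q (C ^ j) (C ^ (j + 1)) hCj
  have hx := hx0 (2 ^ (C ^ j)) (hj2.trans (hjC.trans (Nat.lt_two_pow_self).le))
  rw [← pow_mul, ← pow_succ] at hx
  have hcount : ∑ _m ∈ Ico (C ^ j) (C ^ (j + 1)), c1 / Nat.totient Q * (1 / (C:ℝ) ^ j) ≤
      c / (2 * Nat.totient Q) := by
    rw [Finset.sum_const, Nat.card_Ico, nsmul_eq_mul]
    have h1 : ((C ^ (j + 1) - C ^ j : ℕ) : ℝ) ≤ (C:ℝ) ^ (j + 1) := by
      have : C ^ (j + 1) - C ^ j ≤ C ^ (j + 1) := Nat.sub_le _ _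
      exact_mod_cast this
    calc ((C ^ (j + 1) - C ^ j : ℕ) : ℝ) * (c1 / Nat.totient Q * (1 / (C:ℝ) ^ j))
        ≤ (C:ℝ) ^ (j + 1) * (c1 / Nat.totient Q * (1 / (C:ℝ) ^ j)) := by gcongr
      _ = c / (2 * Nat.totient Q) := by
          rw [hc1, pow_succ]
          field_simp
  have hfin : w * (c / (2 * Nat.totient Q)) ≤
      w * (∑ m ∈ Ico (C ^ j) (C ^ (j + 1)), ((Pset Q m).card : ℝ) / 2 ^ m -
      ∑ _m ∈ Ico (C ^ j) (C ^ (j + 1)), c1 / Nat.totient Q * (1 / (C:ℝ) ^ j)) := by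
    gcongr
    have : c / (Nat.totient Q : ℝ) = c / (2 * Nat.totient Q) + c / (2 * Nat.totient Q) := by
      field_simp
      ring
    linarith
  exact hfin.trans hsum

end Pool.Agent.H18.MR
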