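import Mathlib

/-!
# Shannon entropy for finitely additive probabilities (random variables with finite range)
-/

namespace Pool.Agent.H18.MR

open Finset

/-- A finitely additive probability on `Ω`. -/
structure FAP (Ω : Type*) where
  /-- the probability of an event -/
  P : Set Ω → ℝ
  nonneg : ∀ A, 0 ≤ P A
  add : ∀ A B, Disjoint A B → P (A ∪ B) = P A + P B
  univ : P Set.univ = 1

variable {Ω : Type*} (μ : FAP Ω) {α β γ : Type*}

theorem FAP.empty : μ.P ∅ = 0 := by
  have h := μ.add ∅ ∅ (by simp)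
  simp at h
  exact h

/-- The law of a random variable. -/
def law (X : Ω → α) (a : α) : ℝ := μ.P (X ⁻¹' {a})

theorem law_nonneg (X : Ω → α) (a : α) : 0 ≤ law μ X a := μ.nonneg _

theorem P_pre_finset [DecidableEq α] (X : Ω → α) (S : Finset α) :
    μ.P (X ⁻¹' (S : Set α)) = ∑ a ∈ S, law μ X a := by
  induction S using Finset.induction_on with
  | empty => simp [μ.empty]
  | insert a S ha ih =>
    rw [Finset.sum_insert ha, ← ih, Finset.coe_insert, ← Set.union_singleton,
      Set.union_comm, Set.preimage_union, μ.add]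
    · rfl
    · rw [Set.disjoint_left]
      rintro ω h1 h2
      simp only [Set.mem_preimage, Set.mem_singleton_iff] at h1
      rw [Set.mem_preimage, h1] at h2
      exact ha (Finset.mem_coe.1 h2)

theorem P_pre [Fintype α] [DecidableEq α] (X : Ω → α) (S : Set α) [DecidablePred (· ∈ S)] :
    μ.P (X ⁻¹' S) = ∑ a with a ∈ S, law μ X a := by
  rw [← P_pre_finset]
  congr 2
  ext a
  simp

theorem law_sum [Fintype α] [DecidableEq α] (X : Ω → α) : ∑ a, law μ X a = 1 := by
  rw [← P_pre_finset, Finset.coe_univ, Set.preimage_univ, μ.univ]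

theorem law_comp [Fintype α] [DecidableEq α] [DecidableEq β] (X : Ω → α) (g : α → β) (b : β) :
    law μ (fun ω => g (X ω)) b = ∑ a with g a = b, law μ X a := by
  rw [← P_pre_finset]
  unfold law
  congr 1
  ext ω
  simp

/-- The Shannon entropy. -/
noncomputable def ent [Fintype α] (X : Ω → α) : ℝ := -∑ a, law μ X a * Real.log (law μ X a)

/-- Mutual information. -/
noncomputable def mi [Fintype α] [Fintype β] (X : Ω → α) (Y : Ω → β) : ℝ :=
  ent μ X + ent μ Y - ent μ (fun ω => (X ω, Y ω))

/-- Gibbs' inequality. -/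
theorem gibbs {ι : Type*} (S : Finset ι) (r s : ι → ℝ) (hr : ∀ i, 0 ≤ r i) (hs : ∀ i, 0 ≤ s i)
    (h : ∀ i, s i = 0 → r i = 0) :
    ∑ i ∈ S, r i * Real.log (s i) - ∑ i ∈ S, r i * Real.log (r i) ≤
      ∑ i ∈ S, s i - ∑ i ∈ S, r i := by
  rw [← Finset.sum_sub_distrib, ← Finset.sum_sub_distrib]
  apply Finset.sum_le_sum
  intro i _
  rcases eq_or_lt_of_le (hr i) with h0 | h0
  · rw [← h0]; simp [hs i]
  · have hs0 : 0 < s i := lt_of_le_of_ne (hs i) fun e => h0.ne' (h i e.symm)
    rw [← mul_sub, ← Real.log_div hs0.ne' h0.ne']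
    have := Real.log_le_sub_one_of_pos (div_pos hs0 h0)
    calc r i * Real.log (s i / r i) ≤ r i * (s i / r i - 1) := by gcongr
      _ = s i - r i := by field_simp

/-- Expectations of functions of a function of `X`. -/
theorem sum_law_comp [Fintype α] [DecidableEq α] [Fintype β] [DecidableEq β] (X : Ω → α)
    (g : α → β) (f : β → ℝ) :
    ∑ a, law μ X a * f (g a) = ∑ b, law μ (fun ω => g (X ω)) b * f b := by
  rw [← Finset.sum_fiberwise (s := (Finset.univ : Finset α)) (g := g)]
  apply Finset.sum_congr rfl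
  intro b _
  rw [law_comp, Finset.sum_mul]
  apply Finset.sum_congr rfl
  intro a ha
  rw [(Finset.mem_filter.1 ha).2]

theorem law_le_comp [Fintype α] [DecidableEq α] [DecidableEq β] (X : Ω → α) (g : α → β) (a : α) :
    law μ X a ≤ law μ (fun ω => g (X ω)) (g a) := by
  rw [law_comp μ X g (g a)]
  apply Finset.single_le_sum (f := fun a => law μ X a) (fun a _ => law_nonneg μ X a)
  simp

/-- Functions decrease entropy. -/
theorem ent_comp_le [Fintype α] [DecidableEq α] [Fintype β] [DecidableEq β] (X : Ω → α)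
    (g : α → β) : ent μ (fun ω => g (X ω)) ≤ ent μ X := by
  unfold ent
  rw [neg_le_neg_iff, ← sum_law_comp μ X g (fun b => Real.log (law μ (fun ω => g (X ω)) b))]
  apply Finset.sum_le_sum
  intro a _
  rcases eq_or_lt_of_le (law_nonneg μ X a) with h0 | h0
  · rw [← h0]; simp
  · have := law_le_comp μ X g a
    gcongr

theorem ent_congr_inj [Fintype α] [DecidableEq α] [Fintype β] [DecidableEq β] (X : Ω → α)
    (Y : Ω → β) (g : α → β) (g' : β → α) (h : ∀ ω, Y ω = g (X ω)) (h' : ∀ ω, X ω = g' (Y ω)) :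
    ent μ X = ent μ Y := by
  apply le_antisymm
  · have : X = fun ω => g' (Y ω) := funext h'
    conv_lhs => rw [this]
    exact ent_comp_le μ Y g'
  · have : Y = fun ω => g (X ω) := funext h
    conv_lhs => rw [this]
    exact ent_comp_le μ X g

theorem ent_nonneg [Fintype α] [DecidableEq α] (X : Ω → α) : 0 ≤ ent μ X := by
  unfold ent
  rw [neg_nonneg]
  apply Finset.sum_nonpos
  intro a _
  apply mul_nonpos_of_nonneg_of_nonpos (law_nonneg μ X a)
  apply Real.log_nonpos (law_nonneg μ X a)
  rw [← law_sum μ X]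
  exact Finset.single_le_sum (f := fun a => law μ X a) (fun a _ => law_nonneg μ X a)
    (Finset.mem_univ a)

theorem ent_le_log_card [Fintype α] [DecidableEq α] [Nonempty α] (X : Ω → α) :
    ent μ X ≤ Real.log (Fintype.card α) := by
  have hc : (0:ℝ) < Fintype.card α := by exact_mod_cast Fintype.card_pos
  have h := gibbs Finset.univ (law μ X) (fun _ => 1 / (Fintype.card α : ℝ)) (law_nonneg μ X)
    (fun _ => by positivity) (fun a ha => by
      exfalso
      have : 0 < 1 / (Fintype.card α : ℝ) := by positivity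
      linarith)
  rw [law_sum, ← Finset.sum_mul, law_sum] at h
  simp only [Finset.sum_const, Finset.card_univ, nsmul_eq_mul, one_div, Real.log_inv] at h
  rw [mul_inv_cancel₀ hc.ne'] at h
  unfold ent
  linarith

/-- Submodularity (conditional subadditivity). -/
theorem ent_submod [Fintype α] [DecidableEq α] [Fintype β] [DecidableEq β] [Fintype γ]
    [DecidableEq γ] (X : Ω → α) (Y : Ω → β) (Z : Ω → γ) :
    ent μ (fun ω => (X ω, Y ω, Z ω)) + ent μ Z ≤
      ent μ (fun ω => (X ω, Z ω)) + ent μ (fun ω => (Y ω, Z ω)) := by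
  set T : Ω → α × β × γ := fun ω => (X ω, Y ω, Z ω) with hT
  set p : α × β × γ → ℝ := law μ T with hp
  set pxz : α × γ → ℝ := law μ (fun ω => (X ω, Z ω)) with hpxz
  set pyz : β × γ → ℝ := law μ (fun ω => (Y ω, Z ω)) with hpyz
  set pz : γ → ℝ := law μ Z with hpz
  have e1 : ∀ t, p t ≤ pxz (t.1, t.2.2) := fun t =>
    law_le_comp μ T (fun t => (t.1, t.2.2)) t
  have e2 : ∀ t, p t ≤ pyz (t.2.1, t.2.2) := fun t =>
    law_le_comp μ T (fun t => (t.2.1, t.2.2)) t
  have e3 : ∀ t, p t ≤ pz t.2.2 := fun t =>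
    law_le_comp μ T (fun t => t.2.2) t
  have p0 : ∀ t, 0 ≤ p t := law_nonneg μ T
  have g := gibbs Finset.univ p (fun t => pxz (t.1, t.2.2) * pyz (t.2.1, t.2.2) / pz t.2.2) p0
    (fun t => div_nonneg (mul_nonneg (law_nonneg μ _ _) (law_nonneg μ _ _)) (law_nonneg μ _ _))
    (fun t ht => by
      by_contra hne
      have hpos : 0 < p t := lt_of_le_of_ne (p0 t) (Ne.symm hne)
      have h1 : 0 < pxz (t.1, t.2.2) := hpos.trans_le (e1 t)
      have h2 : 0 < pyz (t.2.1, t.2.2) := hpos.trans_le (e2 t)
      have h3 : 0 < pz t.2.2 := hpos.trans_le (e3 t)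
      have : 0 < pxz (t.1, t.2.2) * pyz (t.2.1, t.2.2) / pz t.2.2 := by positivity
      linarith)
  have hps : ∑ t, p t = 1 := law_sum μ T
  -- the total mass of the comparison measure is at most one
  have hs : ∑ t : α × β × γ, pxz (t.1, t.2.2) * pyz (t.2.1, t.2.2) / pz t.2.2 ≤ 1 := by
    have hx : ∀ c, ∑ a, pxz (a, c) = pz c := by
      intro c
      have := law_comp μ (fun ω => (X ω, Z ω)) Prod.snd c
      simp only at this
      rw [hpz, this, hpxz]
      symm
      apply Finset.sum_nbij' (fun t => t.1) (fun a => (a, c))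
      · simp
      · simp
      · rintro ⟨a, c'⟩ h
        simp at h
        simp [h]
      · simp
      · rintro ⟨a, c'⟩ h
        simp at h
        simp [h]
    have hy : ∀ c, ∑ b, pyz (b, c) = pz c := by
      intro c
      have := law_comp μ (fun ω => (Y ω, Z ω)) Prod.snd c
      simp only at this
      rw [hpz, this, hpyz]
      symm
      apply Finset.sum_nbij' (fun t => t.1) (fun a => (a, c))
      · simp
      · simp
      · rintro ⟨a, c'⟩ h
        simp at h
        simp [h]
      · simp
      · rintro ⟨a, c'⟩ h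
        simp at h
        simp [h]
    rw [Fintype.sum_prod_type]
    simp_rw [Fintype.sum_prod_type]
    have : ∀ a b c, pxz (a, c) * pyz (b, c) / pz c = pxz (a, c) * (pyz (b, c) / pz c) := by
      intros; ring
    calc ∑ a, ∑ b, ∑ c, pxz (a, c) * pyz (b, c) / pz c
        = ∑ c, (∑ a, pxz (a, c)) * (∑ b, pyz (b, c)) / pz c := by
          rw [Finset.sum_comm]
          simp_rw [Finset.sum_comm (s := (Finset.univ : Finset α))]
          rw [Finset.sum_comm]
          apply Finset.sum_congr rfl
          intro c _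
          rw [Finset.sum_mul_sum, Finset.sum_div, Finset.sum_comm]
          apply Finset.sum_congr rfl
          intro a _
          rw [Finset.sum_div]
      _ = ∑ c, pz c * pz c / pz c := by simp_rw [hx, hy]
      _ ≤ ∑ c, pz c := by
          apply Finset.sum_le_sum
          intro c _
          rcases eq_or_lt_of_le (law_nonneg μ Z c) with h0 | h0
          · simp [hpz, ← h0]
          · have : pz c ≠ 0 := h0.ne'
            field_simp
            exact le_refl _
      _ = 1 := law_sum μ Z
  have hlog : ∀ t, p t * Real.log (pxz (t.1, t.2.2) * pyz (t.2.1, t.2.2) / pz t.2.2) =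
      p t * Real.log (pxz (t.1, t.2.2)) + p t * Real.log (pyz (t.2.1, t.2.2))
        - p t * Real.log (pz t.2.2) := by
    intro t
    rcases eq_or_lt_of_le (p0 t) with h0 | h0
    · rw [← h0]; ring
    · have h1 : 0 < pxz (t.1, t.2.2) := h0.trans_le (e1 t)
      have h2 : 0 < pyz (t.2.1, t.2.2) := h0.trans_le (e2 t)
      have h3 : 0 < pz t.2.2 := h0.trans_le (e3 t)
      rw [Real.log_div (mul_pos h1 h2).ne' h3.ne', Real.log_mul h1.ne' h2.ne']
      ring
  rw [Finset.sum_congr rfl (fun t _ => hlog t), Finset.sum_sub_distrib, Finset.sum_add_distrib]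
    at g
  have s1 := sum_law_comp μ T (fun t => (t.1, t.2.2)) (fun u => Real.log (pxz u))
  have s2 := sum_law_comp μ T (fun t => (t.2.1, t.2.2)) (fun u => Real.log (pyz u))
  have s3 := sum_law_comp μ T (fun t => t.2.2) (fun u => Real.log (pz u))
  rw [← hp] at s1 s2 s3
  rw [s1, s2, s3, hps] at g
  have u1 : ent μ T = -∑ t, p t * Real.log (p t) := rfl
  have u2 : ent μ (fun ω => (X ω, Z ω)) = -∑ t, pxz t * Real.log (pxz t) := rfl
  have u3 : ent μ (fun ω => (Y ω, Z ω)) = -∑ t, pyz t * Real.log (pyz t) := rfl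
  have u4 : ent μ Z = -∑ t, pz t * Real.log (pz t) := rfl
  rw [u1, u2, u3, u4]
  linarith

/-- Donsker–Varadhan for an event. -/
theorem dv_event [Fintype α] [DecidableEq α] [Fintype β] [DecidableEq β]
    (X : Ω → α) (Y : Ω → β) (B : α → β → Prop) [∀ a b, Decidable (B a b)] :
    (1 - Real.exp (-1)) * (∑ a, ∑ b, law μ X a * law μ Y b * (if B a b then 1 else 0)) ≤
      mi μ X Y + ∑ a, ∑ b, law μ (fun ω => (X ω, Y ω)) (a, b) * (if B a b then 1 else 0) := by
  set T : Ω → α × β := fun ω => (X ω, Y ω) with hT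
  set p : α × β → ℝ := law μ T with hp
  set px : α → ℝ := law μ X with hpx
  set py : β → ℝ := law μ Y with hpy
  have e1 : ∀ t, p t ≤ px t.1 := fun t => law_le_comp μ T Prod.fst t
  have e2 : ∀ t, p t ≤ py t.2 := fun t => law_le_comp μ T Prod.snd t
  have p0 : ∀ t, 0 ≤ p t := law_nonneg μ T
  set f : α × β → ℝ := fun t => if B t.1 t.2 then 1 else 0 with hf
  have g := gibbs Finset.univ p (fun t => px t.1 * py t.2 * Real.exp (-f t)) p0
    (fun t => mul_nonneg (mul_nonneg (law_nonneg μ _ _) (law_nonneg μ _ _)) (Real.exp_pos _).le)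
    (fun t ht => by
      by_contra hne
      have hpos : 0 < p t := lt_of_le_of_ne (p0 t) (Ne.symm hne)
      have h1 : 0 < px t.1 := hpos.trans_le (e1 t)
      have h2 : 0 < py t.2 := hpos.trans_le (e2 t)
      have : 0 < px t.1 * py t.2 * Real.exp (-f t) := by positivity
      linarith)
  have hps : ∑ t, p t = 1 := law_sum μ T
  have hlog : ∀ t, p t * Real.log (px t.1 * py t.2 * Real.exp (-f t)) =
      p t * Real.log (px t.1) + p t * Real.log (py t.2) - p t * f t := by
    intro t
    rcases eq_or_lt_of_le (p0 t) with h0 | h0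
    · rw [← h0]; ring
    · have h1 : 0 < px t.1 := h0.trans_le (e1 t)
      have h2 : 0 < py t.2 := h0.trans_le (e2 t)
      rw [Real.log_mul (mul_pos h1 h2).ne' (Real.exp_pos _).ne', Real.log_mul h1.ne' h2.ne',
        Real.log_exp]
      ring
  have hexp : ∀ t, px t.1 * py t.2 * Real.exp (-f t) =
      px t.1 * py t.2 - (1 - Real.exp (-1)) * (px t.1 * py t.2 * f t) := by
    intro t
    simp only [hf]
    split_ifs
    · ring
    · simp
  have htot : ∑ t : α × β, px t.1 * py t.2 = 1 := by
    rw [Fintype.sum_prod_type]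
    simp only
    rw [← Finset.sum_mul_sum, law_sum, law_sum, one_mul]
  rw [Finset.sum_congr rfl (fun t _ => hlog t), Finset.sum_sub_distrib, Finset.sum_add_distrib,
    Finset.sum_congr rfl (fun t _ => hexp t), Finset.sum_sub_distrib, ← Finset.mul_sum, htot] at g
  have s1 := sum_law_comp μ T Prod.fst (fun u => Real.log (px u))
  have s2 := sum_law_comp μ T Prod.snd (fun u => Real.log (py u))
  rw [← hp] at s1 s2
  rw [s1, s2, hps] at g
  have t1 : ∑ a, ∑ b, px a * py b * (if B a b then 1 else 0) =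
      ∑ t : α × β, px t.1 * py t.2 * f t := by
    rw [Fintype.sum_prod_type]
  have t2 : ∑ a, ∑ b, p (a, b) * (if B a b then 1 else 0) = ∑ t : α × β, p t * f t := by
    rw [Fintype.sum_prod_type]
  rw [t1, t2]
  have u1 : ent μ T = -∑ t, p t * Real.log (p t) := rfl
  have u2 : ent μ X = -∑ t, px t * Real.log (px t) := rfl
  have u3 : ent μ Y = -∑ t, py t * Real.log (py t) := rfl
  have u4 : mi μ X Y = ent μ X + ent μ Y - ent μ T := rfl
  rw [u4, u1, u2, u3]
  linarith

end Pool.Agent.H18.MR
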