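import Pool.Agent.H59.MR.Dens
import Pool.Agent.H18.MR.Entropy

/-!
# Entropy of blocks of a sign sequence in a residue class
-/

namespace Pool.Agent.H18.MR

open Finset Filter
open Pool.Agent.H24.MR Pool.Agent.H59.MR

variable {ν : Set ℕ → ℝ}

/-- The class of `r` mod `m` has measure `1 / m`. -/
theorem fai_modEq (hν : FinAddInv ν) {m : ℕ} (hm : 0 < m) (r : ℕ) :
    ν {n | n ≡ r [MOD m]} = 1 / m := by
  have key : ∀ r, ν {n | n ≡ r [MOD m]} = ν {n | n ≡ 0 [MOD m]} := by
    intro r
    rw [← fai_shift' hν r {n | n ≡ r [MOD m]}]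
    congr 1
    ext n
    simp only [Set.mem_ofPred_eq]
    constructor
    · intro h
      exact Nat.ModEq.add_right_cancel' r (by simpa using h)
    · intro h
      simpa using h.add_right r
  have hsum := fai_sum_eq hν (Finset.range m) (fun r => {n | n ≡ r [MOD m]}) (by
    intro i hi j hj hij
    rw [Set.disjoint_left]
    intro n hn hn'
    apply hij
    simp only [Set.mem_ofPred_eq] at hn hn'
    have := hn.symm.trans hn'
    exact this.eq_of_lt_of_lt (Finset.mem_range.1 hi) (Finset.mem_range.1 hj))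
  have huniv : {n | ∃ r ∈ Finset.range m, n ∈ {n | n ≡ r [MOD m]}} = Set.univ := by
    ext n
    simp only [Set.mem_ofPred_eq, Set.mem_univ, iff_true]
    exact ⟨n % m, Finset.mem_range.2 (Nat.mod_lt _ hm), (Nat.mod_modEq n m).symm⟩
  rw [huniv, hν.univ, Finset.sum_congr rfl (fun r _ => key r)] at hsum
  simp only [Finset.sum_const, Finset.card_range, nsmul_eq_mul] at hsum
  rw [key r]
  have : (m : ℝ) ≠ 0 := by positivity
  field_simp
  linarith

/-- The conditional probability given `y ≡ u0 (mod Q)`. -/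
noncomputable def condP (ν : Set ℕ → ℝ) (hν : FinAddInv ν) (Q u0 : ℕ)
    (hQ : 0 < Q) : FAP ℕ where
  P A := Q * ν {y | y ≡ u0 [MOD Q] ∧ y ∈ A}
  nonneg A := mul_nonneg (Nat.cast_nonneg _) (hν.nonneg _)
  add A B h := by
    rw [← mul_add, ← hν.add]
    · congr 2
      ext y
      simp only [Set.mem_ofPred_eq, Set.mem_union]
      tauto
    · rw [Set.disjoint_left]
      intro y h1 h2
      exact Set.disjoint_left.1 h h1.2 h2.2
  univ := by
    have : {y | y ≡ u0 [MOD Q] ∧ y ∈ (Set.univ : Set ℕ)} = {y | y ≡ u0 [MOD Q]} := by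
      ext y; simp
    rw [this, fai_modEq hν hQ]
    have : (Q : ℝ) ≠ 0 := by positivity
    field_simp

section

variable (hν : FinAddInv ν) {Q u0 : ℕ} (hQ : 0 < Q)

theorem condP_apply (A : Set ℕ) :
    (condP ν hν Q u0 hQ).P A = Q * ν {y | y ≡ u0 [MOD Q] ∧ y ∈ A} := rfl

theorem condP_shift (A : Set ℕ) (k : ℕ) :
    (condP ν hν Q u0 hQ).P {y | y + Q * k ∈ A} = (condP ν hν Q u0 hQ).P A := by
  rw [condP_apply, condP_apply, ← fai_shift' hν (Q * k) {y | y ≡ u0 [MOD Q] ∧ y ∈ A}]
  congr 2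
  ext y
  simp only [Set.mem_ofPred_eq]
  have : (y + Q * k ≡ u0 [MOD Q]) ↔ (y ≡ u0 [MOD Q]) := by
    simp [Nat.ModEq, Nat.add_mul_mod_self_left]
  rw [this]

theorem law_shift {α : Type*} (X : ℕ → α) (k : ℕ) :
    law (condP ν hν Q u0 hQ) (fun y => X (y + Q * k)) = law (condP ν hν Q u0 hQ) X := by
  ext a
  unfold law
  exact condP_shift hν hQ (X ⁻¹' {a}) k

theorem ent_shift {α : Type*} [Fintype α] (X : ℕ → α) (k : ℕ) :
    ent (condP ν hν Q u0 hQ) (fun y => X (y + Q * k)) = ent (condP ν hν Q u0 hQ) X := by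
  unfold ent
  rw [law_shift]

/-- Residues mod `M` are equidistributed if `M` is coprime to `Q`. -/
theorem law_zmod (M : ℕ) [NeZero M] (h : Nat.Coprime Q M) (r : ZMod M) :
    law (condP ν hν Q u0 hQ) (fun y : ℕ => (y : ZMod M)) r = 1 / M := by
  unfold law
  rw [condP_apply]
  obtain ⟨k, hk1, hk2⟩ := Nat.chineseRemainder h u0 r.val
  have : {y | y ≡ u0 [MOD Q] ∧ y ∈ (fun y : ℕ => (y : ZMod M)) ⁻¹' {r}} =
      {y | y ≡ k [MOD Q * M]} := by
    ext y
    simp only [Set.mem_ofPred_eq, Set.mem_preimage, Set.mem_singleton_iff]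
    have e : ((y : ZMod M) = r) ↔ (y ≡ k [MOD M]) := by
      constructor
      · intro e
        have : (y : ZMod M) = ((r.val : ℕ) : ZMod M) := by rw [e, ZMod.natCast_zmod_val]
        exact ((ZMod.natCast_eq_natCast_iff _ _ _).1 this).trans hk2.symm
      · intro e
        have := (ZMod.natCast_eq_natCast_iff _ _ _).2 (e.trans hk2)
        rw [this, ZMod.natCast_zmod_val]
    rw [e, ← Nat.modEq_and_modEq_iff_modEq_mul h]
    constructor
    · rintro ⟨h1, h2⟩; exact ⟨h1.trans hk1.symm, h2⟩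
    · rintro ⟨h1, h2⟩; exact ⟨h1.trans hk1, h2⟩
  rw [this, fai_modEq hν (Nat.mul_pos hQ (Nat.pos_of_ne_zero (NeZero.ne M)))]
  have h1 : (Q : ℝ) ≠ 0 := by positivity
  have h2 : (M : ℝ) ≠ 0 := by exact_mod_cast NeZero.ne M
  push_cast
  field_simp

theorem ent_zmod (M : ℕ) [NeZero M] (h : Nat.Coprime Q M) :
    ent (condP ν hν Q u0 hQ) (fun y : ℕ => (y : ZMod M)) = Real.log M := by
  unfold ent
  simp_rw [law_zmod hν hQ M h]
  simp only [Finset.sum_const, Finset.card_univ, ZMod.card, nsmul_eq_mul, one_div, Real.log_inv]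
  have h2 : (M : ℝ) ≠ 0 := by exact_mod_cast NeZero.ne M
  field_simp

/-- Superadditivity of the mutual information over coprime moduli. -/
theorem mi_mul {α : Type*} [Fintype α] [DecidableEq α] (X : ℕ → α) (M p : ℕ) [NeZero M]
    [NeZero p] [NeZero (M * p)] (hM : Nat.Coprime Q M) (hp : Nat.Coprime Q p)
    (hMp : Nat.Coprime M p) :
    mi (condP ν hν Q u0 hQ) X (fun y : ℕ => (y : ZMod M)) +
      mi (condP ν hν Q u0 hQ) X (fun y : ℕ => (y : ZMod p)) ≤
      mi (condP ν hν Q u0 hQ) X (fun y : ℕ => (y : ZMod (M * p))) := by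
  set μ := condP ν hν Q u0 hQ
  have h1 := ent_submod μ (fun y : ℕ => (y : ZMod M)) (fun y : ℕ => (y : ZMod p)) X
  have h2 : ent μ (fun y : ℕ => (X y, (y : ZMod (M * p)))) ≤
      ent μ (fun y : ℕ => ((y : ZMod M), (y : ZMod p), X y)) := by
    have := ent_comp_le μ (fun y : ℕ => ((y : ZMod M), (y : ZMod p), X y))
      (fun t => (t.2.2, (ZMod.chineseRemainder hMp).symm (t.1, t.2.1)))
    have e : (fun y : ℕ => (X y, (y : ZMod (M * p)))) =
        fun y : ℕ => (X y, (ZMod.chineseRemainder hMp).symm ((y : ZMod M), (y : ZMod p))) := by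
      funext y
      congr 1
      rw [eq_comm, RingEquiv.symm_apply_eq, map_natCast]
      rfl
    rw [e]
    exact this
  have h3 : ent μ (fun y : ℕ => ((y : ZMod M), X y)) ≤ ent μ (fun y : ℕ => (X y, (y : ZMod M))) :=
    ent_comp_le μ (fun y : ℕ => (X y, (y : ZMod M))) (fun t => (t.2, t.1))
  have h4 : ent μ (fun y : ℕ => ((y : ZMod p), X y)) ≤ ent μ (fun y : ℕ => (X y, (y : ZMod p))) :=
    ent_comp_le μ (fun y : ℕ => (X y, (y : ZMod p))) (fun t => (t.2, t.1))
  have e1 : ent μ (fun y : ℕ => (y : ZMod M)) = Real.log M := ent_zmod hν hQ M hM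
  have e2 : ent μ (fun y : ℕ => (y : ZMod p)) = Real.log p := ent_zmod hν hQ p hp
  have e3 : ent μ (fun y : ℕ => (y : ZMod (M * p))) = Real.log (M * p : ℕ) :=
    ent_zmod hν hQ (M * p) (Nat.Coprime.mul_right hM hp)
  have hM0 : (M : ℝ) ≠ 0 := by exact_mod_cast NeZero.ne M
  have hp0 : (p : ℝ) ≠ 0 := by exact_mod_cast NeZero.ne p
  rw [Nat.cast_mul, Real.log_mul hM0 hp0] at e3
  unfold mi
  rw [e1, e2, e3]
  linarith

/-- Mutual information with the residue mod `M` (`0` if `M = 0`). -/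
noncomputable def miN {α : Type*} [Fintype α] (μ : FAP ℕ) (X : ℕ → α) (M : ℕ) : ℝ :=
  if h : M = 0 then 0 else
    haveI : NeZero M := ⟨h⟩
    mi μ X (fun y : ℕ => (y : ZMod M))

theorem miN_eq {α : Type*} [Fintype α] (μ : FAP ℕ) (X : ℕ → α) (M : ℕ) [NeZero M] :
    miN μ X M = mi μ X (fun y : ℕ => (y : ZMod M)) := by
  unfold miN
  rw [dif_neg (NeZero.ne M)]

theorem mi_nonneg {Ω α β : Type*} (μ : FAP Ω) [Fintype α] [DecidableEq α] [Fintype β]
    [DecidableEq β] (X : Ω → α) (Y : Ω → β) : 0 ≤ mi μ X Y := by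
  have := dv_event μ X Y (fun _ _ => False)
  simpa using this

theorem miN_nonneg {α : Type*} [Fintype α] [DecidableEq α] (μ : FAP ℕ) (X : ℕ → α) (M : ℕ) :
    0 ≤ miN μ X M := by
  unfold miN
  split_ifs with h
  · exact le_refl _
  · have : NeZero M := ⟨h⟩
    exact mi_nonneg μ X _

theorem sum_miN_le {α : Type*} [Fintype α] [DecidableEq α] (X : ℕ → α) (S : Finset ℕ)
    (hS : ∀ p ∈ S, p.Prime) (hc : ∀ p ∈ S, Nat.Coprime Q p) :
    ∑ p ∈ S, miN (condP ν hν Q u0 hQ) X p ≤ miN (condP ν hν Q u0 hQ) X (∏ p ∈ S, p) := by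
  induction S using Finset.induction_on with
  | empty => simp [miN_nonneg]
  | insert p S hp ih =>
    rw [Finset.sum_insert hp, Finset.prod_insert hp]
    have ih' := ih (fun q hq => hS q (Finset.mem_insert_of_mem hq))
      (fun q hq => hc q (Finset.mem_insert_of_mem hq))
    have hpp := hS p (Finset.mem_insert_self _ _)
    have : NeZero p := ⟨hpp.ne_zero⟩
    have hprod : ∏ q ∈ S, q ≠ 0 := Finset.prod_ne_zero_iff.2 fun q hq =>
      (hS q (Finset.mem_insert_of_mem hq)).ne_zero
    have : NeZero (∏ q ∈ S, q) := ⟨hprod⟩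
    have : NeZero (p * ∏ q ∈ S, q) := ⟨mul_ne_zero hpp.ne_zero hprod⟩
    have h := mi_mul hν hQ (u0 := u0) X p (∏ q ∈ S, q) (hc p (Finset.mem_insert_self _ _))
      (Nat.Coprime.prod_right fun q hq => hc q (Finset.mem_insert_of_mem hq))
      (Nat.Coprime.prod_right fun q hq =>
        (Nat.coprime_primes hpp (hS q (Finset.mem_insert_of_mem hq))).2 (by
          rintro rfl; exact hp hq))
    rw [← miN_eq, ← miN_eq, ← miN_eq] at h
    linarith

/-- The block of length `Q * n` of the sign sequence `a` starting at `y`. -/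
noncomputable def blk (a : ℕ → ℝ) (Q n : ℕ) (y : ℕ) : Fin (Q * n) → Bool :=
  fun j => open Classical in decide (a (y + j) = 1)

/-- The subadditivity of block entropies given the residue mod `M`. -/
theorem ent_blk_mul (a : ℕ → ℝ) (n M : ℕ) [NeZero M] (k : ℕ) :
    ent (condP ν hν Q u0 hQ) (fun y : ℕ => (blk a Q (k * n) y, (y : ZMod M))) +
      k * ent (condP ν hν Q u0 hQ) (fun y : ℕ => (y : ZMod M)) ≤
    k * ent (condP ν hν Q u0 hQ) (fun y : ℕ => (blk a Q n y, (y : ZMod M))) +
      ent (condP ν hν Q u0 hQ) (fun y : ℕ => (y : ZMod M)) := by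
  set μ := condP ν hν Q u0 hQ with hμ
  induction k with
  | zero =>
    have h := ent_comp_le μ (fun y : ℕ => (y : ZMod M))
      (fun r => ((fun _ => true : Fin (Q * (0 * n)) → Bool), r))
    have e : (fun y : ℕ => (blk a Q (0 * n) y, (y : ZMod M))) =
        fun y : ℕ => ((fun _ => true : Fin (Q * (0 * n)) → Bool), (y : ZMod M)) := by
      funext y
      congr 1
      funext j
      exact absurd j.2 (by simp)
    rw [e]
    simp only [Nat.cast_zero, zero_mul, add_zero, zero_add]
    exact h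
  | succ k ih =>
    set T : ℕ → ℕ := fun y => y + Q * (k * n) with hT
    have h1 := ent_submod μ (blk a Q (k * n)) (fun y => blk a Q n (T y)) (fun y : ℕ => (y : ZMod M))
    have h2 : ent μ (fun y : ℕ => (blk a Q ((k + 1) * n) y, (y : ZMod M))) ≤
        ent μ (fun y => (blk a Q (k * n) y, blk a Q n (T y), (y : ZMod M))) := by
      have h := ent_comp_le μ (fun y => (blk a Q (k * n) y, blk a Q n (T y), (y : ZMod M)))
        (fun t => ((fun j => if h : (j : ℕ) < Q * (k * n) then t.1 ⟨j, h⟩ else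
          t.2.1 ⟨j - Q * (k * n), by
            have := j.2
            have e : Q * ((k + 1) * n) = Q * (k * n) + Q * n := by ring
            omega⟩ : Fin (Q * ((k + 1) * n)) → Bool), t.2.2))
      have e : (fun y : ℕ => (blk a Q ((k + 1) * n) y, (y : ZMod M))) =
          fun y : ℕ => ((fun j => if h : (j : ℕ) < Q * (k * n) then (blk a Q (k * n) y) ⟨j, h⟩ else
          (blk a Q n (T y)) ⟨j - Q * (k * n), by
            have := j.2
            have e : Q * ((k + 1) * n) = Q * (k * n) + Q * n := by ring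
            omega⟩ : Fin (Q * ((k + 1) * n)) → Bool), (y : ZMod M)) := by
        funext y
        congr 1
        funext j
        by_cases hj : (j : ℕ) < Q * (k * n)
        · rw [dif_pos hj]; rfl
        · rw [dif_neg hj]
          simp only [blk, hT]
          congr 3
          omega
      rw [e]
      exact h
    have h3 : ent μ (fun y => (blk a Q n (T y), (y : ZMod M))) ≤
        ent μ (fun y => (blk a Q n y, (y : ZMod M))) := by
      rw [← ent_shift hν hQ (fun y => (blk a Q n y, (y : ZMod M))) (k * n)]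
      have h := ent_comp_le μ (fun y : ℕ => (blk a Q n (T y), ((T y : ℕ) : ZMod M)))
        (fun t => (t.1, t.2 - ((Q * (k * n) : ℕ) : ZMod M)))
      have e : (fun y => (blk a Q n (T y), (y : ZMod M))) =
          fun y => (blk a Q n (T y), ((T y : ℕ) : ZMod M) - ((Q * (k * n) : ℕ) : ZMod M)) := by
        funext y
        congr 1
        simp only [hT]
        push_cast
        ring
      rw [e]
      exact h
    push_cast
    linarith

/-- The entropy decrement inequality. -/
theorem ent_blk_decr (a : ℕ → ℝ) (n M : ℕ) [NeZero M] (h : Nat.Coprime Q M) (k : ℕ) :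
    ent (condP ν hν Q u0 hQ) (blk a Q (k * n)) ≤
      k * (ent (condP ν hν Q u0 hQ) (blk a Q n) - miN (condP ν hν Q u0 hQ) (blk a Q n) M) +
        Real.log M := by
  set μ := condP ν hν Q u0 hQ with hμ
  have h1 := ent_blk_mul hν hQ (u0 := u0) a n M k
  have h2 : ent μ (blk a Q (k * n)) ≤ ent μ (fun y : ℕ => (blk a Q (k * n) y, (y : ZMod M))) :=
    ent_comp_le μ (fun y : ℕ => (blk a Q (k * n) y, (y : ZMod M))) Prod.fst
  have h3 := ent_zmod hν hQ (u0 := u0) M h
  rw [miN_eq]
  unfold mi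
  rw [← hμ] at h1 h3
  rw [h3] at h1 ⊢
  nlinarith

end

end Pool.Agent.H18.MR
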