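import Pool.Agent.H18.MR.EN
import Pool.Agent.H62.MR.ME

/-!
# Module [EN]: final form for the interface
-/

namespace Pool.Agent.H18.MR

open Finset Filter
open Pool.Agent.H24.MR Pool.Agent.H59.MR

theorem en_of_me (hME : StatementME) : StatementEN := by
  obtain ⟨C, c, hC, hc, hM⟩ := hME
  have hC0 : (0:ℝ) < C := by exact_mod_cast (by omega : 0 < C)
  refine ⟨c / (4 * C), by positivity, ?_⟩
  intro μ hμ a Q K u₀ σ η ha hQ hη hyp m₀
  obtain ⟨m, hm, G, h1, h2, h3⟩ := entropy_decrement C hC c hc (by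
    intro q hq
    obtain ⟨x₀, hx₀⟩ := hM q hq
    refine ⟨⌈x₀⌉₊, fun x hx => ?_⟩
    have h := hx₀ x ((Nat.le_ceil x₀).trans (by exact_mod_cast hx))
    have e : ⌊(x : ℝ) ^ C⌋₊ = x ^ C := by
      rw [← Nat.cast_pow, Nat.floor_natCast]
    rw [Nat.floor_natCast, e] at h
    exact h) μ hμ a ha Q K u₀ hQ σ η hη hyp m₀
  refine ⟨m, hm, G, h1, h2, fun p hp => (h3 p hp).trans ?_⟩
  gcongr
  norm_num

/-- [EN] holds. -/
theorem en : StatementEN := en_of_me Pool.Agent.H62.MR.me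

end Pool.Agent.H18.MR
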