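import Pool.Agent.H18.MR.Block

/-!
# From small mutual information with `y mod p` to the absence of bad pairs
-/

namespace Pool.Agent.H18.MR

open Finset Filter
open Pool.Agent.H24.MR Pool.Agent.H59.MR

theorem sum_law_ind {Ω α : Type*} [Fintype α] [DecidableEq α] (μ : FAP Ω) (X : Ω → α)
    (B : α → Prop) [DecidablePred B] :
    ∑ x, law μ X x * (if B x then 1 else 0) = μ.P {ω | B (X ω)} := by
  have h := P_pre μ X {x | B x}
  have e : X ⁻¹' {x | B x} = {ω | B (X ω)} := rfl
  rw [e] at h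
  rw [h, Finset.sum_filter]
  apply Finset.sum_congr rfl
  intro x _
  by_cases hx : B x
  · simp [hx]
  · simp [hx]

theorem sum_law_joint {Ω α β : Type*} [Fintype α] [DecidableEq α] [Fintype β] [DecidableEq β]
    (μ : FAP Ω) (X : Ω → α) (Y : Ω → β) (r : β) (B : α → Prop) [DecidablePred B] :
    ∑ x, law μ (fun ω => (X ω, Y ω)) (x, r) * (if B x then 1 else 0) =
      μ.P {ω | B (X ω) ∧ Y ω = r} := by
  have h := sum_law_ind μ (fun ω => (X ω, Y ω)) (fun t => B t.1 ∧ t.2 = r)
  rw [← h, Fintype.sum_prod_type]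
  apply Finset.sum_congr rfl
  intro x _
  rw [Finset.sum_eq_single r]
  · simp
  · intro b _ hb
    simp [hb]
  · simp

/-- The sign of a bit. -/
noncomputable def sg (b : Bool) : ℝ := if b then 1 else -1

/-- Extension of a block by `true`. -/
def extb {L : ℕ} (x : Fin L → Bool) (j : ℕ) : Bool := if h : j < L then x ⟨j, h⟩ else true

theorem sg_extb_blk {a : ℕ → ℝ} (ha : ∀ n, a n = 1 ∨ a n = -1) {Q n : ℕ} (y j : ℕ)
    (hj : j < Q * n) : sg (extb (blk a Q n y) j) = a (y + j) := by
  unfold extb blk sg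
  rw [dif_pos hj]
  rcases ha (y + j) with h | h
  · simp [h]
  · simp only [h]
    norm_num

variable {ν : Set ℕ → ℝ} (hν : FinAddInv ν) {Q u0 : ℕ} (hQ : 0 < Q)

/-- The shift that moves the class of `r` to the class of `0`. -/
def kk (Q p : ℕ) (r : ZMod p) : ℕ := (-r * (Q : ZMod p)⁻¹).val

theorem dvd_add_kk {p : ℕ} [NeZero p] (hp : Nat.Coprime Q p) (r : ZMod p) (y : ℕ) :
    p ∣ y + Q * kk Q p r ↔ (y : ZMod p) = r := by
  rw [← ZMod.natCast_eq_zero_iff]
  push_cast
  unfold kk
  rw [ZMod.natCast_zmod_val]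
  have h := ZMod.coe_mul_inv_eq_one Q hp
  have : (y : ZMod p) + (Q : ZMod p) * (-r * (Q : ZMod p)⁻¹) = y - r := by
    linear_combination (-r) * h
  rw [this, sub_eq_zero]

theorem prime_bound (a : ℕ → ℝ) (ha : ∀ n, a n = 1 ∨ a n = -1) (s : ℝ) (K' n p : ℕ) [NeZero p]
    (hp : Nat.Coprime Q p) (hn : p * (Q + K') ≤ Q * n) (η : ℝ)
    (hη : ν {y | y ≡ u0 [MOD Q] ∧ p ∣ y ∧ a y * a (y + p * K') ≠ s} ≤ η / (p * Q)) :
    (1 - Real.exp (-1)) * (condP ν hν Q u0 hQ).P {y | a y * a (y + p * K') ≠ s} ≤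
      miN (condP ν hν Q u0 hQ) (blk a Q n) p + η := by
  classical
  set μ := condP ν hν Q u0 hQ with hμ
  have hp0 : 0 < p := Nat.pos_of_ne_zero (NeZero.ne p)
  set B : (Fin (Q * n) → Bool) → ZMod p → Prop := fun x r =>
    sg (extb x (Q * kk Q p r)) * sg (extb x (Q * kk Q p r + p * K')) ≠ s with hB
  have hlt : ∀ r : ZMod p, Q * kk Q p r + p * K' < Q * n := by
    intro r
    have h1 : kk Q p r < p := ZMod.val_lt _
    have h2 : kk Q p r + 1 ≤ p := h1
    have h3 : Q * (kk Q p r + 1) ≤ Q * p := Nat.mul_le_mul_left _ h2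
    nlinarith
  have hBiff : ∀ (y : ℕ) (r : ZMod p), B (blk a Q n y) r ↔
      y + Q * kk Q p r ∈ {y | a y * a (y + p * K') ≠ s} := by
    intro y r
    have h2 := hlt r
    have h1 : Q * kk Q p r < Q * n := by omega
    simp only [hB, Set.mem_ofPred_eq]
    rw [sg_extb_blk ha y _ h1, sg_extb_blk ha y _ h2, Nat.add_assoc]
  have dv := dv_event μ (blk a Q n) (fun y : ℕ => (y : ZMod p)) B
  -- the product side
  have hprod : ∑ x, ∑ r, law μ (blk a Q n) x * law μ (fun y : ℕ => (y : ZMod p)) r *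
      (if B x r then 1 else 0) = μ.P {y | a y * a (y + p * K') ≠ s} := by
    rw [Finset.sum_comm]
    have : ∀ r : ZMod p, ∑ x, law μ (blk a Q n) x * law μ (fun y : ℕ => (y : ZMod p)) r *
        (if B x r then 1 else 0) = 1 / p * μ.P {y | a y * a (y + p * K') ≠ s} := by
      intro r
      have e : ∀ x, law μ (blk a Q n) x * law μ (fun y : ℕ => (y : ZMod p)) r *
        (if B x r then 1 else 0) = 1 / p * (law μ (blk a Q n) x * (if B x r then 1 else 0)) := by
        intro x
        rw [law_zmod hν hQ p hp r]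
        ring
      rw [Finset.sum_congr rfl (fun x _ => e x), ← Finset.mul_sum, sum_law_ind]
      congr 1
      have : {y | B (blk a Q n y) r} =
          {y | y + Q * kk Q p r ∈ {y | a y * a (y + p * K') ≠ s}} := by
        ext y; exact hBiff y r
      rw [this]
      exact condP_shift hν hQ _ _
    rw [Finset.sum_congr rfl (fun r _ => this r)]
    simp only [Finset.sum_const, Finset.card_univ, ZMod.card, nsmul_eq_mul]
    have : (p : ℝ) ≠ 0 := by positivity
    field_simp
  -- the joint side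
  have hjoint : ∑ x, ∑ r, law μ (fun y => (blk a Q n y, ((y : ℕ) : ZMod p))) (x, r) *
      (if B x r then 1 else 0) ≤ η := by
    rw [Finset.sum_comm]
    have : ∀ r : ZMod p, ∑ x, law μ (fun y => (blk a Q n y, ((y : ℕ) : ZMod p))) (x, r) *
      (if B x r then 1 else 0) ≤ η / p := by
      intro r
      have h := sum_law_joint μ (blk a Q n) (fun y : ℕ => (y : ZMod p)) r (fun x => B x r)
      rw [h]
      have : {y : ℕ | B (blk a Q n y) r ∧ ((y : ℕ) : ZMod p) = r} =
          {y | y + Q * kk Q p r ∈ {y | p ∣ y ∧ a y * a (y + p * K') ≠ s}} := by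
        ext y
        simp only [Set.mem_ofPred_eq]
        rw [hBiff, dvd_add_kk hp]
        simp only [Set.mem_ofPred_eq]
        tauto
      rw [this, hμ, condP_shift hν hQ, condP_apply]
      simp only [Set.mem_ofPred_eq]
      have h1 : (0:ℝ) < Q := by exact_mod_cast hQ
      have h2 : (0:ℝ) < p := by exact_mod_cast hp0
      calc (Q : ℝ) * ν {y | y ≡ u0 [MOD Q] ∧ p ∣ y ∧ a y * a (y + p * K') ≠ s}
          ≤ Q * (η / (p * Q)) := by gcongr
        _ = η / p := by field_simp
    calc _ ≤ ∑ r : ZMod p, η / p := Finset.sum_le_sum fun r _ => this r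
      _ = η := by
        simp only [Finset.sum_const, Finset.card_univ, ZMod.card, nsmul_eq_mul]
        have : (p : ℝ) ≠ 0 := by positivity
        field_simp
  rw [hprod] at dv
  rw [miN_eq]
  linarith

end Pool.Agent.H18.MR
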